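import Mathlib

/-!
Basic definitions for the problem MP_6cdbe4_gt: the category of ultrametric spaces,
max-min measures of finite support with their distance, and the symmetric powers.
-/

open CategoryTheory

namespace Pool.Agent.MP_6cdbe4_gt

universe u

/-- An ultrametric space. -/
structure UMET : Type (u + 1) where
  carrier : Type u
  [metric : MetricSpace carrier]
  [ultra : IsUltrametricDist carrier]

attribute [instance] UMET.metric UMET.ultra

/-- A nonexpanding map between ultrametric spaces. -/
@[ext]
structure Nonexpanding (X Y : UMET.{u}) where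
  toFun : X.carrier → Y.carrier
  dist_le : ∀ x y, dist (toFun x) (toFun y) ≤ dist x y

/-- The category of ultrametric spaces and nonexpanding maps. -/
instance : Category UMET.{u} where
  Hom := Nonexpanding
  id _ := ⟨id, fun _ _ => le_rfl⟩
  comp f g := ⟨g.toFun ∘ f.toFun, fun _ _ => (g.dist_le _ _).trans (f.dist_le _ _)⟩

/-- The functional `μ` on `C(X)` has the form `μ φ = max_i min (α i) (φ (x i))` for finitely many
points `x i` and weights `α i` in `[-∞, ∞]`, one of which is `+∞`. -/
def IsMaxMin {X : Type u} [TopologicalSpace X] (μ : C(X, ℝ) → ℝ) : Prop :=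
  ∃ (k : ℕ) (x : Fin k → X) (α : Fin k → EReal), (∃ i, α i = ⊤) ∧
    ∀ φ : C(X, ℝ), (μ φ : EReal) = ⨆ i, min (α i) (φ (x i) : EReal)

/-- Max-min measures of finite support on `X`. -/
def MaxMin (X : Type u) [TopologicalSpace X] : Type u :=
  {μ : C(X, ℝ) → ℝ // IsMaxMin μ}

/-- `φ` is constant on every open ball of radius `r`. -/
def ConstOnBalls {X : Type u} [MetricSpace X] (r : ℝ) (φ : X → ℝ) : Prop :=
  ∀ x y, y ∈ Metric.ball x r → φ y = φ x

/-- The distance of two max-min measures: the infimum of the `r > 0` such that they agree on all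
functions that are constant on the open balls of radius `r`. -/
noncomputable def maxMinDist {X : Type u} [MetricSpace X] (μ ν : MaxMin X) : ℝ :=
  sInf {r : ℝ | 0 < r ∧ ∀ φ : C(X, ℝ), ConstOnBalls r φ → μ.1 φ = ν.1 φ}

/-- Two `n`-tuples are equivalent if they differ by a permutation of the coordinates. -/
def permSetoid (n : ℕ) (X : Type u) : Setoid (Fin n → X) where
  r x y := ∃ σ : Equiv.Perm (Fin n), y = x ∘ σ
  iseqv :=
    { refl := fun _ => ⟨1, rfl⟩
      symm := by
        rintro x _ ⟨σ, rfl⟩
        exact ⟨σ.symm, by ext i; simp⟩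
      trans := by
        rintro x _ _ ⟨σ, rfl⟩ ⟨τ, rfl⟩
        exact ⟨σ * τ, rfl⟩ }

/-- The symmetric power `X ^ n / S_n`. -/
def SymPow (n : ℕ) (X : Type u) : Type u :=
  Quotient (permSetoid n X)

/-- The minimum over permutations `σ` of the max-distance of the tuples `x` and `y ∘ σ`. -/
noncomputable def tupleDist {n : ℕ} {X : Type u} [MetricSpace X] (x y : Fin n → X) : ℝ :=
  ⨅ σ : Equiv.Perm (Fin n), dist x (y ∘ σ)

end Pool.Agent.MP_6cdbe4_gt
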