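import Pool.Agent.MP_6cdbe4_gt.Lemmas1

/-!
The monad of max-min measures of finite support and the symmetric power functor on the category
of ultrametric spaces.
-/

open CategoryTheory

namespace Pool.Agent.MP_6cdbe4_gt

universe u

/-- The space of max-min measures with the distance `maxMinDist`. -/
noncomputable instance maxMinMetric (X : Type u) [MetricSpace X] [IsUltrametricDist X] :
    MetricSpace (MaxMin X) where
  dist := maxMinDist
  dist_self μ := id (maxMinDist_self μ)
  dist_comm μ ν := id (maxMinDist_comm μ ν)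
  dist_triangle μ ν ρ := id (maxMinDist_triangle μ ν ρ)
  eq_of_dist_eq_zero h := id (eq_of_maxMinDist_eq_zero h)

instance maxMinUltra (X : Type u) [MetricSpace X] [IsUltrametricDist X] :
    IsUltrametricDist (MaxMin X) :=
  ⟨maxMinDist_triangle_max⟩

/-- A nonexpanding map as a continuous map. -/
def Nonexpanding.toContinuousMap {X Y : UMET.{u}} (f : Nonexpanding X Y) :
    C(X.carrier, Y.carrier) :=
  ⟨f.toFun, (LipschitzWith.mk_one f.dist_le).continuous⟩

/-- The Dirac measure `δ_x φ = φ x`. -/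
def dirac {X : Type u} [TopologicalSpace X] (x : X) : MaxMin X :=
  ⟨fun φ => φ x, 1, fun _ => x, fun _ => ⊤, ⟨0, rfl⟩, fun φ => by simp⟩

/-- The image measure `φ ↦ μ (φ ∘ f)`: it moves each atom `x i` of `μ` to `f (x i)`. -/
def pushforward {X Y : Type u} [TopologicalSpace X] [TopologicalSpace Y] (f : C(X, Y))
    (μ : MaxMin X) : MaxMin Y :=
  ⟨fun φ => μ.1 (φ.comp f), by
    obtain ⟨k, x, α, h0, h⟩ := μ.2
    exact ⟨k, f ∘ x, α, h0, fun φ => h (φ.comp f)⟩⟩

/-- The function `μ ↦ μ φ` on the space of max-min measures. -/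
noncomputable def evalAt {X : Type u} [MetricSpace X] [IsUltrametricDist X] (φ : C(X, ℝ)) :
    C(MaxMin X, ℝ) :=
  ⟨fun μ => μ.1 φ, by
    refine Metric.continuous_iff.mpr fun μ ε hε => ?_
    obtain ⟨r, hr, h⟩ := eval_close μ φ (half_pos hε)
    exact ⟨r, hr, fun ν hν => lt_of_le_of_lt (h ν hν) (half_lt_self hε)⟩⟩

/-- The multiplication `ξ M φ = M (μ ↦ μ φ)`. -/
noncomputable def flatten {X : Type u} [MetricSpace X] [IsUltrametricDist X]
    (M : MaxMin (MaxMin X)) : MaxMin X :=
  ⟨fun φ => M.1 (evalAt φ), isMaxMin_flatten _ (dens_finite M) (dens_top M) fun φ =>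
    apply_eq M (evalAt φ)⟩

/-- The endofunctor `J_ω` of the category of ultrametric spaces. -/
noncomputable def maxMinFunctor : UMET.{u} ⥤ UMET.{u} where
  obj X := ⟨MaxMin X.carrier⟩
  map f := ⟨pushforward f.toContinuousMap, fun _ _ =>
    maxMinDist_le_of_forall dist_nonneg fun _ hr _ hφ => agree_of_maxMinDist_lt hr _
      fun x y hy => hφ _ _ (lt_of_le_of_lt (f.dist_le y x) hy)⟩
  map_id _ := rfl
  map_comp _ _ := rfl

/-- The monad `(J_ω, δ, ξ)`. -/
noncomputable def maxMinMonad : Monad UMET.{u} where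
  toFunctor := maxMinFunctor
  η :=
    { app := fun _ => ⟨dirac, fun x y =>
        maxMinDist_le_of_forall dist_nonneg fun _ hr _ hφ => hφ y x hr⟩
      naturality := fun _ _ _ => rfl }
  μ :=
    { app := fun _ => ⟨flatten, fun _ _ =>
        maxMinDist_le_of_forall dist_nonneg fun _ hr φ hφ => agree_of_maxMinDist_lt hr _
          fun _ _ hν => agree_of_maxMinDist_lt hν φ hφ⟩
      naturality := fun _ _ _ => rfl }
  assoc _ := rfl
  left_unit _ := rfl
  right_unit _ := rfl

/-- The symmetric power with the distance induced by `tupleDist`. -/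
noncomputable instance symPowMetric (n : ℕ) (X : Type u) [MetricSpace X] [IsUltrametricDist X] :
    MetricSpace (SymPow n X) where
  dist := Quotient.lift₂ tupleDist fun x y x' y' hx hy => id (tupleDist_congr x y x' y' hx hy)
  dist_self := by
    rintro ⟨x⟩
    exact tupleDist_self x
  dist_comm := by
    rintro ⟨x⟩ ⟨y⟩
    exact tupleDist_comm x y
  dist_triangle := by
    rintro ⟨x⟩ ⟨y⟩ ⟨z⟩
    exact tupleDist_triangle x y z
  eq_of_dist_eq_zero := by
    rintro ⟨x⟩ ⟨y⟩ h
    exact Quotient.sound (rel_of_tupleDist_eq_zero h)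

instance symPowUltra (n : ℕ) (X : Type u) [MetricSpace X] [IsUltrametricDist X] :
    IsUltrametricDist (SymPow n X) :=
  ⟨by
    rintro ⟨x⟩ ⟨y⟩ ⟨z⟩
    exact tupleDist_triangle_max x y z⟩

/-- The functor `SP^n`, acting on maps coordinatewise. -/
noncomputable def symPowFunctor (n : ℕ) : UMET.{u} ⥤ UMET.{u} where
  obj X := ⟨SymPow n X.carrier⟩
  map f := ⟨Quotient.map (fun x => f.toFun ∘ x) (by
      rintro x _ ⟨σ, rfl⟩
      exact ⟨σ, rfl⟩), by
    rintro ⟨x⟩ ⟨y⟩
    exact tupleDist_map_le f.dist_le x y⟩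
  map_id _ := by
    refine Nonexpanding.ext (funext ?_)
    rintro ⟨x⟩
    rfl
  map_comp _ _ := by
    refine Nonexpanding.ext (funext ?_)
    rintro ⟨x⟩
    rfl

/-- `G` is an extension of `F` onto the Kleisli category of `T`: `G ∘ Φ = Φ ∘ F`, where `Φ` is the
canonical functor to the Kleisli category. -/
def IsKleisliExtension {C : Type*} [Category C] (T : Monad C) (F : C ⥤ C)
    (G : Kleisli T ⥤ Kleisli T) : Prop :=
  Kleisli.Adjunction.toKleisli T ⋙ G = F ⋙ Kleisli.Adjunction.toKleisli T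

end Pool.Agent.MP_6cdbe4_gt
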