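import Pool.Agent.MP_6cdbe4_gt.Defs2

/-!
For every monotone self-map `θ` of `[-∞, ∞]` fixing both ends, an extension of `SP^n` onto the
Kleisli category.
-/

open CategoryTheory

namespace Pool.Agent.MP_6cdbe4_gt

universe u

section dens

variable {X Y Z : Type u} [MetricSpace X] [IsUltrametricDist X] [MetricSpace Y]
  [IsUltrametricDist Y] [MetricSpace Z] [IsUltrametricDist Z]

open Classical in
theorem dens_dirac (x y : X) : dens (dirac x) y = if y = x then ⊤ else ⊥ := by
  have : dens (dirac x) = fun y => if y = x then ⊤ else ⊥ := by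
    refine dens_unique ((Set.finite_singleton x).subset fun y hy => ?_) fun φ => ?_
    · by_contra h
      exact hy (if_neg h)
    · apply le_antisymm
      · exact le_iSup_of_le x (by simp [dirac])
      · refine iSup_le fun y => ?_
        by_cases h : y = x
        · simp [h, dirac]
        · simp [h]
  rw [this]

omit [IsUltrametricDist Y] in
theorem dens_bind (g : C(Y, MaxMin Z)) (μ : MaxMin Y) (z : Z) :
    dens (flatten (pushforward g μ)) z = ⨆ y, min (dens μ y) (dens (g y) z) := by
  have : dens (flatten (pushforward g μ)) = fun z => ⨆ y, min (dens μ y) (dens (g y) z) := by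
    refine dens_unique ?_ fun φ => ?_
    · refine ((dens_finite μ).biUnion fun y _ => dens_finite (g y)).subset fun x hx => ?_
      by_contra hn
      apply hx
      simp only [iSup_eq_bot]
      intro y
      by_cases hy : dens μ y = ⊥
      · simp [hy]
      · have : dens (g y) x = ⊥ := by
          by_contra h'
          exact hn (Set.mem_biUnion (show y ∈ {y | dens μ y ≠ ⊥} from hy) h')
        simp [this]
    · have : ((flatten (pushforward g μ)).1 φ : EReal) = μ.1 ((evalAt φ).comp g) := rfl
      rw [this, apply_eq]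
      have h2 : ∀ y, (((evalAt φ).comp g) y : EReal) = ⨆ z, min (dens (g y) z) (φ z : EReal) :=
        fun y => apply_eq (g y) φ
      simp only [h2, inf_iSup_eq, iSup_inf_eq, min_assoc]
      exact iSup_comm
  rw [this]

end dens

/-- Monotone self-maps of `[-∞, ∞]` that fix both ends. -/
structure Twist where
  toFun : EReal → EReal
  mono : Monotone toFun
  map_bot : toFun ⊥ = ⊥
  map_top : toFun ⊤ = ⊤

/-- The class of a tuple in the symmetric power. -/
def cls {n : ℕ} {X : Type u} (x : Fin n → X) : SymPow n X := Quotient.mk _ x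

section lam

variable {n : ℕ} (θ : Twist) {X Y Z : Type u} [MetricSpace X] [IsUltrametricDist X]
  [MetricSpace Y] [IsUltrametricDist Y] [MetricSpace Z] [IsUltrametricDist Z]

/-- The weight function of the twisted product measure. -/
noncomputable def tupleDens (μ : Fin n → MaxMin Y) (c : SymPow n Y) : EReal :=
  ⨆ (y : Fin n → Y) (_ : cls y = c), θ.toFun (⨅ i, dens (μ i) (y i))

omit [IsUltrametricDist Y] in
theorem tupleDens_finite (μ : Fin n → MaxMin Y) : {c | tupleDens θ μ c ≠ ⊥}.Finite := by
  refine ((Set.Finite.pi' fun i => dens_finite (μ i)).image cls).subset fun c hc => ?_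
  by_contra hn
  apply hc
  simp only [tupleDens, iSup_eq_bot]
  intro y hy
  have : ∃ i, dens (μ i) (y i) = ⊥ := by
    by_contra h
    push Not at h
    exact hn ⟨y, h, hy⟩
  obtain ⟨i, hi⟩ := this
  have : (⨅ i, dens (μ i) (y i)) = ⊥ := le_bot_iff.mp (hi ▸ iInf_le _ i)
  rw [this, θ.map_bot]

omit [IsUltrametricDist Y] in
theorem tupleDens_top (μ : Fin n → MaxMin Y) : ∃ c, tupleDens θ μ c = ⊤ := by
  choose y hy using fun i => dens_top (μ i)
  refine ⟨cls y, top_le_iff.mp (le_iSup₂_of_le y rfl ?_)⟩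
  simp [hy, θ.map_top]

/-- The twisted product measure on the symmetric power. -/
noncomputable def lam (μ : Fin n → MaxMin Y) : MaxMin (SymPow n Y) :=
  ofDens (tupleDens θ μ) (tupleDens_finite θ μ) (tupleDens_top θ μ)

theorem dens_lam (μ : Fin n → MaxMin Y) : dens (lam θ μ) = tupleDens θ μ := dens_ofDens _ _ _

omit [IsUltrametricDist Y] in
theorem tupleDens_perm_le (μ : Fin n → MaxMin Y) (σ : Equiv.Perm (Fin n)) (c : SymPow n Y) :
    tupleDens θ (μ ∘ σ) c ≤ tupleDens θ μ c := by
  refine iSup₂_le fun y hy => le_iSup₂_of_le (y ∘ σ.symm) ?_ (θ.mono ?_)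
  · rw [← hy]
    exact (Quotient.sound (s := permSetoid n Y) ⟨σ.symm, rfl⟩).symm
  · refine le_iInf fun i => iInf_le_of_le (σ.symm i) ?_
    simp

theorem lam_perm (μ : Fin n → MaxMin Y) (σ : Equiv.Perm (Fin n)) : lam θ (μ ∘ σ) = lam θ μ := by
  refine ext_dens fun c => ?_
  rw [dens_lam, dens_lam]
  refine le_antisymm (tupleDens_perm_le θ μ σ c) ?_
  have := tupleDens_perm_le θ (μ ∘ σ) σ.symm c
  have h : (μ ∘ σ) ∘ σ.symm = μ := by
    ext i
    simp
  rwa [h] at this

theorem tupleDens_near {r : ℝ} (hr : 0 < r) {μ ν : Fin n → MaxMin Y}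
    (h : ∀ i, Agree r (μ i) (ν i)) : Near r (tupleDens θ μ) (tupleDens θ ν) := by
  intro c
  obtain ⟨c', hc', hmax⟩ := exists_max_of_finite _ (tupleDens_finite θ ν) (Metric.ball c r)
    ⟨c, Metric.mem_ball_self hr⟩
  refine ⟨c', hc', iSup₂_le fun y hy => ?_⟩
  choose y' hy' hle using fun i => near_of_agree hr (h i) (y i)
  have hmem : cls y' ∈ Metric.ball c r := by
    rw [← hy]
    refine lt_of_le_of_lt (tupleDist_le y' y 1) ?_
    exact (dist_pi_lt_iff hr).mpr hy'
  refine le_trans ?_ (hmax _ hmem)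
  exact le_iSup₂_of_le y' rfl (θ.mono (iInf_mono hle))

theorem lam_agree {r : ℝ} (hr : 0 < r) {μ ν : Fin n → MaxMin Y}
    (h : ∀ i, Agree r (μ i) (ν i)) : Agree r (lam θ μ) (lam θ ν) := by
  apply agree_of_near <;> rw [dens_lam, dens_lam]
  · exact tupleDens_near θ hr h
  · exact tupleDens_near θ hr fun i => (h i).symm

theorem lam_dirac (x : Fin n → Y) : lam θ (fun i => dirac (x i)) = dirac (cls x) := by
  refine ext_dens fun c => ?_
  rw [dens_lam, dens_dirac]
  split_ifs with h
  · refine top_le_iff.mp (le_iSup₂_of_le x h.symm ?_)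
    simp [dens_dirac, θ.map_top]
  · simp only [tupleDens, iSup_eq_bot]
    intro y hy
    have : ∃ i, y i ≠ x i := by
      by_contra h'
      push Not at h'
      exact h (by rw [← hy, funext h'])
    obtain ⟨i, hi⟩ := this
    have : (⨅ i, dens (dirac (x i)) (y i)) = ⊥ := by
      refine le_bot_iff.mp (iInf_le_of_le i ?_)
      simp [dens_dirac, hi]
    rw [this, θ.map_bot]

theorem lam_bind (μ : Fin n → MaxMin Y) (g : C(Y, MaxMin Z))
    (G : C(SymPow n Y, MaxMin (SymPow n Z))) (hG : ∀ y, G (cls y) = lam θ fun i => g (y i)) :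
    lam θ (fun i => flatten (pushforward g (μ i))) = flatten (pushforward G (lam θ μ)) := by
  refine ext_dens fun c => ?_
  rw [dens_bind, dens_lam, dens_lam]
  apply le_antisymm
  · refine iSup₂_le fun z hz => ?_
    have : ∀ i, ∃ y, (⨆ y, min (dens (μ i) y) (dens (g y) (z i))) ≤
        min (dens (μ i) y) (dens (g y) (z i)) := by
      intro i
      obtain ⟨y0, -⟩ := dens_top (μ i)
      obtain ⟨y, -, hy⟩ := exists_max_of_finite (fun y => min (dens (μ i) y) (dens (g y) (z i)))
        ((dens_finite (μ i)).subset fun y hy h => hy (by simp [h])) Set.univ ⟨y0, trivial⟩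
      exact ⟨y, iSup_le fun w => hy w trivial⟩
    choose y hy using this
    refine le_iSup_of_le (cls y) (le_min ?_ ?_)
    · refine le_iSup₂_of_le y rfl (θ.mono (iInf_mono fun i => ?_))
      rw [dens_bind]
      exact (hy i).trans (min_le_left _ _)
    · rw [hG, dens_lam]
      refine le_iSup₂_of_le z hz (θ.mono (iInf_mono fun i => ?_))
      rw [dens_bind]
      exact (hy i).trans (min_le_right _ _)
  · refine iSup_le fun c' => ?_
    rw [tupleDens, iSup_inf_eq]
    refine iSup_le fun y => ?_
    rw [iSup_inf_eq]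
    refine iSup_le fun hy => ?_
    rw [← hy, hG, dens_lam, tupleDens, inf_iSup_eq]
    refine iSup_le fun z => ?_
    rw [inf_iSup_eq]
    refine iSup_le fun hz => le_iSup₂_of_le z hz ?_
    rw [← θ.mono.map_min]
    refine θ.mono (le_iInf fun i => ?_)
    rw [dens_bind]
    exact le_iSup_of_le (y i) (min_le_min (iInf_le _ i) (iInf_le _ i))

end lam

/-- The action of the twisted extension on a Kleisli morphism. -/
noncomputable def extMap (n : ℕ) (θ : Twist) {X Y : UMET.{u}}
    (f : X ⟶ maxMinMonad.obj Y) :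
    (symPowFunctor n).obj X ⟶ maxMinMonad.obj ((symPowFunctor n).obj Y) where
  toFun := Quotient.lift (fun x => lam θ fun i => f.toFun (x i)) (by
    rintro x _ ⟨σ, rfl⟩
    exact (lam_perm θ (fun i => f.toFun (x i)) σ).symm)
  dist_le := by
    rintro ⟨x⟩ ⟨y⟩
    refine maxMinDist_le_of_forall (tupleDist_nonneg x y) fun r hr => ?_
    obtain ⟨σ, hσ⟩ := exists_tupleDist_eq x y
    have hr0 : 0 < r := (tupleDist_nonneg x y).trans_lt hr
    have hr' : dist x (y ∘ σ) < r := hσ ▸ hr
    have := lam_agree θ hr0 (μ := fun i => f.toFun (x i)) (ν := fun i => f.toFun (y (σ i)))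
      fun i => agree_of_maxMinDist_lt
        (lt_of_le_of_lt (f.dist_le _ _) ((dist_pi_lt_iff hr0).mp hr' i))
    have h2 := lam_perm θ (fun i => f.toFun (y i)) σ
    exact fun φ hφ => (this φ hφ).trans (congrArg (fun m => m.1 φ) h2)

theorem extMap_cls (n : ℕ) (θ : Twist) {X Y : UMET.{u}} (f : X ⟶ maxMinMonad.obj Y)
    (x : Fin n → X.carrier) :
    (extMap n θ f).toFun (cls x) = lam θ fun i => f.toFun (x i) := rfl

/-- The twisted extension of `SP^n`. -/
noncomputable def ext (n : ℕ) (θ : Twist) : Kleisli maxMinMonad.{u} ⥤ Kleisli maxMinMonad.{u} where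
  obj X := .mk _ ((symPowFunctor n).obj X.of)
  map f := .mk (extMap n θ f.of)
  map_id X := by
    refine Kleisli.hom_ext (Nonexpanding.ext (funext ?_))
    rintro ⟨x⟩
    exact lam_dirac θ x
  map_comp f g := by
    refine Kleisli.hom_ext (Nonexpanding.ext (funext ?_))
    rintro ⟨x⟩
    exact lam_bind θ (fun i => f.of.toFun (x i)) g.of.toContinuousMap
      (extMap n θ g.of).toContinuousMap fun _ => rfl

theorem ext_isKleisliExtension (n : ℕ) (θ : Twist) :
    IsKleisliExtension maxMinMonad.{u} (symPowFunctor n) (ext n θ) := by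
  refine Functor.hext (fun _ => rfl) fun X Y f => heq_of_eq ?_
  refine Kleisli.hom_ext (Nonexpanding.ext (funext ?_))
  rintro ⟨x⟩
  exact lam_dirac θ fun i => f.toFun (x i)

theorem tupleDens_const {n : ℕ} (hn : 0 < n) (θ : Twist) {Y : Type u} [MetricSpace Y]
    (μ : MaxMin Y) (y : Y) :
    tupleDens θ (fun _ : Fin n => μ) (cls fun _ => y) = θ.toFun (dens μ y) := by
  have : Nonempty (Fin n) := ⟨⟨0, hn⟩⟩
  apply le_antisymm
  · refine iSup₂_le fun z hz => ?_
    obtain ⟨σ, hσ⟩ := (permSetoid n Y).iseqv.symm (Quotient.exact hz)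
    subst hσ
    simp
  · exact le_iSup₂_of_le (fun _ => y) rfl (by simp)

theorem ext_faithful_of_injective {n : ℕ} (hn : 0 < n) (θ : Twist)
    (hθ : Function.Injective θ.toFun) : (ext.{u} n θ).Faithful := by
  refine ⟨fun {X Y f g} h => ?_⟩
  refine Kleisli.hom_ext (Nonexpanding.ext (funext fun x => ext_dens fun y => hθ ?_))
  have h1 : (extMap n θ f.of).toFun (cls fun _ => x) = (extMap n θ g.of).toFun (cls fun _ => x) :=
    congrArg (fun k : (ext n θ).obj X ⟶ (ext n θ).obj Y => k.of.toFun (cls fun _ => x)) h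
  rw [extMap_cls, extMap_cls] at h1
  have h2 := congrArg (fun m => dens m (cls fun _ => y)) h1
  simp only [dens_lam] at h2
  exact (tupleDens_const hn θ _ y).symm.trans (h2.trans (tupleDens_const hn θ _ y))

/-- The identity twist. -/
def Twist.id : Twist := ⟨_root_.id, monotone_id, rfl, rfl⟩

/-- The twist that only remembers the support. -/
noncomputable def Twist.supp : Twist :=
  ⟨fun a => if a = ⊥ then ⊥ else ⊤, by
    intro a b hab
    by_cases ha : a = ⊥
    · simp [ha]
    · have hb : b ≠ ⊥ := ne_bot_of_le_ne_bot ha hab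
      simp [ha, hb], by simp, by simp⟩

/-- The one-point space. -/
def ptSpace : UMET.{u} :=
  @UMET.mk PUnit _ ⟨fun _ _ _ => le_max_left _ _⟩

/-- The two-point space. -/
def TwoPt : Type u := ULift Bool

noncomputable instance : MetricSpace TwoPt.{u} where
  dist x y := if x.down = y.down then 0 else 1
  dist_self x := by simp
  dist_comm x y := by simp [eq_comm]
  dist_triangle x y z := by
    rcases x with ⟨_ | _⟩ <;> rcases y with ⟨_ | _⟩ <;> rcases z with ⟨_ | _⟩ <;> simp
  eq_of_dist_eq_zero := by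
    rintro ⟨_ | _⟩ ⟨_ | _⟩ <;> simp

instance : IsUltrametricDist TwoPt.{u} := ⟨by
  have h : ∀ x y : TwoPt.{u}, dist x y = if x.down = y.down then 0 else 1 := fun _ _ => rfl
  rintro ⟨_ | _⟩ ⟨_ | _⟩ ⟨_ | _⟩ <;> simp [h]⟩

instance : Finite TwoPt.{u} := inferInstanceAs (Finite (ULift Bool))

/-- The two-point space as an object. -/
noncomputable def twoSpace : UMET.{u} := ⟨TwoPt⟩

/-- The measure with weight `∞` at one point and weight `a` at the other. -/
noncomputable def twoMeas (a : EReal) : MaxMin TwoPt.{u} :=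
  ofDens (fun x => if x.down then a else ⊤) (Set.toFinite _) ⟨⟨false⟩, by simp⟩

/-- The Kleisli morphism from the point with value `twoMeas a`. -/
noncomputable def twoHom (a : EReal) :
    Kleisli.mk maxMinMonad.{u} ptSpace ⟶ Kleisli.mk maxMinMonad twoSpace :=
  ⟨⟨fun _ => twoMeas a, fun x y => by
    rw [dist_self]
    exact dist_nonneg⟩⟩

theorem not_faithful_supp (n : ℕ) : ¬ (ext.{u} n Twist.supp).Faithful := by
  intro h
  have h1 : (ext n Twist.supp).map (twoHom 0) = (ext n Twist.supp).map (twoHom ⊤) := by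
    refine Kleisli.hom_ext (Nonexpanding.ext (funext ?_))
    rintro ⟨x⟩
    refine ext_dens fun c => ?_
    change dens (lam Twist.supp fun _ : Fin n => twoMeas 0) c =
      dens (lam Twist.supp fun _ : Fin n => twoMeas ⊤) c
    rw [dens_lam, dens_lam]
    refine iSup_congr fun y => iSup_congr fun _ => ?_
    have key : ∀ a : EReal, 0 ≤ a → (⨅ i, dens (twoMeas a) (y i)) ≠ ⊥ := by
      intro a ha
      refine ne_bot_of_le_ne_bot (b := 0) (by simp) (le_iInf fun i => ?_)
      rw [twoMeas, dens_ofDens]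
      split_ifs
      · exact ha
      · exact le_top
    simp only [Twist.supp, if_neg (key 0 le_rfl), if_neg (key ⊤ le_top)]
  have h2 := (ext n Twist.supp).map_injective h1
  have h3 : twoMeas.{u} 0 = twoMeas ⊤ :=
    congrArg (fun k : Kleisli.mk maxMinMonad.{u} ptSpace ⟶ Kleisli.mk maxMinMonad twoSpace =>
      k.of.toFun PUnit.unit) h2
  have h4 := congrArg (fun m => dens m ⟨true⟩) h3
  simp [twoMeas, dens_ofDens] at h4

theorem two_extensions (n : ℕ) (hn : 0 < n) :
    ∃ G₁ G₂ : Kleisli maxMinMonad.{u} ⥤ Kleisli maxMinMonad.{u},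
      IsKleisliExtension maxMinMonad (symPowFunctor n) G₁ ∧
      IsKleisliExtension maxMinMonad (symPowFunctor n) G₂ ∧
      G₁ ≠ G₂ ∧ IsEmpty (G₁ ≅ G₂) := by
  have hf := ext_faithful_of_injective.{u} hn Twist.id Function.injective_id
  have he : IsEmpty (ext.{u} n Twist.id ≅ ext n Twist.supp) :=
    ⟨fun e => not_faithful_supp n (Functor.Faithful.of_iso e)⟩
  exact ⟨ext n Twist.id, ext n Twist.supp, ext_isKleisliExtension n _, ext_isKleisliExtension n _,
    fun h => he.false (eqToIso h), he⟩

end Pool.Agent.MP_6cdbe4_gt
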