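import Pool.Agent.MP_6cdbe4_gt.Defs1

/-!
Lemmas on max-min measures: densities, the distance, continuity of evaluation.
-/

namespace Pool.Agent.MP_6cdbe4_gt

universe u

section top

variable {X : Type u} [TopologicalSpace X]

theorem exists_dens (μ : MaxMin X) :
    ∃ a : X → EReal, {x | a x ≠ ⊥}.Finite ∧ (∃ x, a x = ⊤) ∧
      ∀ φ : C(X, ℝ), (μ.1 φ : EReal) = ⨆ x, min (a x) (φ x : EReal) := by
  obtain ⟨k, x, α, ⟨i0, hi0⟩, h⟩ := μ.2
  refine ⟨fun y => ⨆ i, ⨆ (_ : x i = y), α i, ?_, ⟨x i0, ?_⟩, fun φ => ?_⟩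
  · refine (Set.finite_range x).subset ?_
    intro y hy
    by_contra hn
    apply hy
    simp only [iSup_eq_bot]
    intro i hi
    exact absurd ⟨i, hi⟩ hn
  · refine top_le_iff.mp ?_
    rw [← hi0]
    exact le_iSup₂_of_le i0 rfl le_rfl
  · rw [h φ]
    apply le_antisymm
    · refine iSup_le fun i => le_iSup_of_le (x i) ?_
      exact min_le_min (le_iSup₂_of_le i rfl le_rfl) le_rfl
    · refine iSup_le fun y => ?_
      rw [iSup_inf_eq]
      refine iSup_le fun i => ?_
      rw [iSup_inf_eq]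
      refine iSup_le fun hi => ?_
      subst hi
      exact le_iSup_of_le i le_rfl

/-- The weight function of a max-min measure. -/
noncomputable def dens (μ : MaxMin X) : X → EReal := (exists_dens μ).choose

theorem dens_finite (μ : MaxMin X) : {x | dens μ x ≠ ⊥}.Finite := (exists_dens μ).choose_spec.1

theorem dens_top (μ : MaxMin X) : ∃ x, dens μ x = ⊤ := (exists_dens μ).choose_spec.2.1

theorem apply_eq (μ : MaxMin X) (φ : C(X, ℝ)) :
    (μ.1 φ : EReal) = ⨆ x, min (dens μ x) (φ x : EReal) := (exists_dens μ).choose_spec.2.2 φ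

theorem isMaxMin_of_dens {μ : C(X, ℝ) → ℝ} (a : X → EReal) (hfin : {x | a x ≠ ⊥}.Finite)
    (htop : ∃ x, a x = ⊤) (h : ∀ φ : C(X, ℝ), (μ φ : EReal) = ⨆ x, min (a x) (φ x : EReal)) :
    IsMaxMin μ := by
  classical
  let e := hfin.toFinset.equivFin
  obtain ⟨x0, hx0⟩ := htop
  have hx0' : x0 ∈ hfin.toFinset := by simp [hx0]
  refine ⟨hfin.toFinset.card, fun i => (e.symm i).1, fun i => a (e.symm i).1,
    ⟨e ⟨x0, hx0'⟩, by simp [hx0]⟩, fun φ => ?_⟩
  rw [h φ]
  apply le_antisymm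
  · refine iSup_le fun y => ?_
    by_cases hy : a y = ⊥
    · simp [hy]
    · have hy' : y ∈ hfin.toFinset := by simp [hy]
      exact le_iSup_of_le (e ⟨y, hy'⟩) (by simp)
  · exact iSup_le fun i => le_iSup_of_le (e.symm i).1 le_rfl

theorem iSup_min_ne_top (a : X → EReal) (hfin : {x | a x ≠ ⊥}.Finite) (φ : C(X, ℝ)) :
    (⨆ x, min (a x) (φ x : EReal)) ≠ ⊤ := by
  obtain ⟨M, hM⟩ := (hfin.image φ).bddAbove
  have : (⨆ x, min (a x) (φ x : EReal)) ≤ (M : EReal) := by
    refine iSup_le fun x => ?_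
    by_cases hx : a x = ⊥
    · simp [hx]
    · refine min_le_of_right_le ?_
      exact_mod_cast hM ⟨x, hx, rfl⟩
  exact ne_top_of_le_ne_top (EReal.coe_ne_top M) this

theorem iSup_min_ne_bot (a : X → EReal) (htop : ∃ x, a x = ⊤) (φ : C(X, ℝ)) :
    (⨆ x, min (a x) (φ x : EReal)) ≠ ⊥ := by
  obtain ⟨x, hx⟩ := htop
  have : (φ x : EReal) ≤ ⨆ x, min (a x) (φ x : EReal) := le_iSup_of_le x (by simp [hx])
  exact ne_bot_of_le_ne_bot (EReal.coe_ne_bot _) this

/-- The max-min measure with a given weight function. -/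
noncomputable def ofDens (a : X → EReal) (hfin : {x | a x ≠ ⊥}.Finite) (htop : ∃ x, a x = ⊤) :
    MaxMin X :=
  ⟨fun φ => (⨆ x, min (a x) (φ x : EReal)).toReal,
    isMaxMin_of_dens a hfin htop fun φ =>
      EReal.coe_toReal (iSup_min_ne_top a hfin φ) (iSup_min_ne_bot a htop φ)⟩

theorem ofDens_apply (a : X → EReal) (hfin : {x | a x ≠ ⊥}.Finite) (htop : ∃ x, a x = ⊤)
    (φ : C(X, ℝ)) : ((ofDens a hfin htop).1 φ : EReal) = ⨆ x, min (a x) (φ x : EReal) :=
  EReal.coe_toReal (iSup_min_ne_top a hfin φ) (iSup_min_ne_bot a htop φ)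

theorem ext_dens {μ ν : MaxMin X} (h : ∀ x, dens μ x = dens ν x) : μ = ν := by
  apply Subtype.ext
  funext φ
  have : (μ.1 φ : EReal) = ν.1 φ := by
    rw [apply_eq, apply_eq]
    simp only [h]
  exact_mod_cast this

theorem apply_le_iff (μ : MaxMin X) (φ : C(X, ℝ)) (c : ℝ) :
    μ.1 φ ≤ c ↔ ∀ x, dens μ x ≤ c ∨ φ x ≤ c := by
  rw [← EReal.coe_le_coe_iff, apply_eq, iSup_le_iff]
  simp only [min_le_iff, EReal.coe_le_coe_iff]

theorem isMaxMin_flatten {μ : C(X, ℝ) → ℝ} (A : MaxMin X → EReal)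
    (hfin : {ν | A ν ≠ ⊥}.Finite) (htop : ∃ ν, A ν = ⊤)
    (h : ∀ φ : C(X, ℝ), (μ φ : EReal) = ⨆ ν, min (A ν) (ν.1 φ : EReal)) : IsMaxMin μ := by
  refine isMaxMin_of_dens (fun x => ⨆ ν, min (A ν) (dens ν x)) ?_ ?_ fun φ => ?_
  · refine (hfin.biUnion fun ν _ => dens_finite ν).subset fun x hx => ?_
    by_contra hn
    apply hx
    simp only [iSup_eq_bot]
    intro ν
    by_cases hν : A ν = ⊥
    · simp [hν]
    · have : dens ν x = ⊥ := by
        by_contra h'
        exact hn (Set.mem_biUnion (show ν ∈ {ν | A ν ≠ ⊥} from hν) h')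
      simp [this]
  · obtain ⟨ν, hν⟩ := htop
    obtain ⟨x, hx⟩ := dens_top ν
    exact ⟨x, top_le_iff.mp (le_iSup_of_le ν (by simp [hν, hx]))⟩
  · rw [h φ]
    simp only [apply_eq, inf_iSup_eq, iSup_inf_eq, min_assoc]
    exact iSup_comm

end top

/-- A supremum of a finitely supported family over a nonempty set is attained. -/
theorem exists_max_of_finite {ι : Type*} (a : ι → EReal) (hfin : {x | a x ≠ ⊥}.Finite)
    (s : Set ι) (hs : s.Nonempty) : ∃ y ∈ s, ∀ z ∈ s, a z ≤ a y := by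
  by_cases h : (s ∩ {x | a x ≠ ⊥}).Nonempty
  · obtain ⟨y, hy, hmax⟩ := Set.exists_max_image _ a (hfin.inter_of_right s) h
    refine ⟨y, hy.1, fun z hz => ?_⟩
    by_cases hz' : a z = ⊥
    · simp [hz']
    · exact hmax z ⟨hz, hz'⟩
  · obtain ⟨y, hy⟩ := hs
    refine ⟨y, hy, fun z hz => ?_⟩
    have : a z = ⊥ := by
      by_contra hz'
      exact h ⟨z, hz, hz'⟩
    simp [this]

section metric

variable {X : Type u} [MetricSpace X]

/-- Agreement on the functions that are constant on the open balls of radius `r`. -/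
def Agree (r : ℝ) (μ ν : MaxMin X) : Prop :=
  ∀ φ : C(X, ℝ), ConstOnBalls r φ → μ.1 φ = ν.1 φ

/-- Every weight of `a` is dominated by a weight of `b` at a point at distance `< r`. -/
def Near (r : ℝ) (a b : X → EReal) : Prop :=
  ∀ y, ∃ y', dist y' y < r ∧ a y ≤ b y'

theorem Agree.symm {r : ℝ} {μ ν : MaxMin X} (h : Agree r μ ν) : Agree r ν μ :=
  fun φ hφ => (h φ hφ).symm

theorem Agree.trans {r : ℝ} {μ ν ρ : MaxMin X} (h : Agree r μ ν) (h' : Agree r ν ρ) :
    Agree r μ ρ := fun φ hφ => (h φ hφ).trans (h' φ hφ)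

theorem Agree.mono {r s : ℝ} {μ ν : MaxMin X} (h : Agree r μ ν) (hrs : r ≤ s) : Agree s μ ν :=
  fun φ hφ => h φ fun x y hy => hφ x y (Metric.ball_subset_ball hrs hy)

theorem le_of_near {r : ℝ} {a b : X → EReal} (h : Near r a b) {φ : X → ℝ}
    (hφ : ConstOnBalls r φ) :
    (⨆ x, min (a x) (φ x : EReal)) ≤ ⨆ x, min (b x) (φ x : EReal) := by
  refine iSup_le fun y => ?_
  obtain ⟨y', hy', hle⟩ := h y
  refine le_iSup_of_le y' (min_le_min hle ?_)
  rw [hφ y y' hy']

theorem agree_of_near {r : ℝ} {μ ν : MaxMin X} (h : Near r (dens μ) (dens ν))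
    (h' : Near r (dens ν) (dens μ)) : Agree r μ ν := by
  intro φ hφ
  have : (μ.1 φ : EReal) = ν.1 φ := by
    rw [apply_eq, apply_eq]
    exact le_antisymm (le_of_near h hφ) (le_of_near h' hφ)
  exact_mod_cast this

variable [IsUltrametricDist X]

omit [IsUltrametricDist X] in
theorem continuous_of_constOnBalls {r : ℝ} (hr : 0 < r) {φ : X → ℝ} (hφ : ConstOnBalls r φ) :
    Continuous φ := by
  rw [continuous_iff_continuousAt]
  intro x
  have : φ =ᶠ[nhds x] fun _ => φ x := by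
    filter_upwards [Metric.ball_mem_nhds x hr] with y hy using hφ x y hy
  exact continuousAt_const.congr this.symm

theorem near_of_le {r : ℝ} (hr : 0 < r) {a b : X → EReal} (hfin : {x | b x ≠ ⊥}.Finite)
    (h : ∀ φ : C(X, ℝ), ConstOnBalls r φ →
      (⨆ x, min (a x) (φ x : EReal)) ≤ ⨆ x, min (b x) (φ x : EReal)) : Near r a b := by
  classical
  intro y
  obtain ⟨y', hy', hmax⟩ := exists_max_of_finite b hfin (Metric.ball y r)
    ⟨y, Metric.mem_ball_self hr⟩
  refine ⟨y', hy', ?_⟩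
  by_contra hlt
  rw [not_le] at hlt
  obtain ⟨t, ht1, ht2⟩ := EReal.lt_iff_exists_real_btwn.mp hlt
  obtain ⟨s, hs1, hs2⟩ := EReal.lt_iff_exists_real_btwn.mp ht1
  let ψ : X → ℝ := fun z => if z ∈ Metric.ball y r then t else s
  have hψ : ConstOnBalls r ψ := by
    intro x z hz
    have : z ∈ Metric.ball y r ↔ x ∈ Metric.ball y r := by
      simp only [Metric.mem_ball] at hz ⊢
      constructor
      · intro h1
        have := IsUltrametricDist.dist_triangle_max x z y
        rw [dist_comm x z] at this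
        exact lt_of_le_of_lt this (max_lt hz h1)
      · intro h1
        exact lt_of_le_of_lt (IsUltrametricDist.dist_triangle_max z x y) (max_lt hz h1)
    simp only [ψ, this]
  have h1 := h ⟨ψ, continuous_of_constOnBalls hr hψ⟩ hψ
  have h2 : (t : EReal) ≤ ⨆ x, min (a x) (ψ x : EReal) := by
    refine le_iSup_of_le y ?_
    have : ψ y = t := by simp [ψ, hr]
    rw [this]
    exact le_min ht2.le le_rfl
  have h3 : (⨆ x, min (b x) (ψ x : EReal)) ≤ s := by
    refine iSup_le fun x => ?_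
    by_cases hx : x ∈ Metric.ball y r
    · exact min_le_of_left_le ((hmax x hx).trans hs1.le)
    · refine min_le_of_right_le ?_
      simp only [ψ, if_neg hx, le_refl]
  exact absurd (h2.trans (h1.trans h3)) (not_le.mpr hs2)

theorem near_of_agree {r : ℝ} (hr : 0 < r) {μ ν : MaxMin X} (h : Agree r μ ν) :
    Near r (dens μ) (dens ν) := by
  refine near_of_le hr (dens_finite ν) fun φ hφ => ?_
  rw [← apply_eq, ← apply_eq, h φ hφ]

omit [IsUltrametricDist X] in
theorem le_of_forall_near {a b : X → EReal} (hfin : {x | b x ≠ ⊥}.Finite)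
    (h : ∀ r > 0, Near r a b) (y : X) : a y ≤ b y := by
  by_cases hy : a y = ⊥
  · simp [hy]
  obtain ⟨r, hr, hsep⟩ : ∃ r > 0, ∀ z, b z ≠ ⊥ → dist z y < r → z = y := by
    have hc : IsClosed ({x | b x ≠ ⊥} \ {y}) := (hfin.sdiff).isClosed
    obtain ⟨r, hr, hsub⟩ := Metric.isOpen_iff.mp hc.isOpen_compl y (by simp)
    refine ⟨r, hr, fun z hz hd => ?_⟩
    by_contra hne
    exact hsub hd ⟨hz, hne⟩
  obtain ⟨y', hy', hle⟩ := h r hr y
  have : b y' ≠ ⊥ := ne_bot_of_le_ne_bot hy hle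
  rwa [hsep y' this hy'] at hle

theorem dens_unique {μ : MaxMin X} {a : X → EReal} (hfin : {x | a x ≠ ⊥}.Finite)
    (h : ∀ φ : C(X, ℝ), (μ.1 φ : EReal) = ⨆ x, min (a x) (φ x : EReal)) : dens μ = a := by
  funext y
  apply le_antisymm
  · refine le_of_forall_near hfin (fun r hr => near_of_le hr hfin fun φ _ => ?_) y
    rw [← apply_eq, h φ]
  · refine le_of_forall_near (dens_finite μ)
      (fun r hr => near_of_le hr (dens_finite μ) fun φ _ => ?_) y
    rw [← apply_eq, h φ]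

theorem dens_ofDens (a : X → EReal) (hfin : {x | a x ≠ ⊥}.Finite) (htop : ∃ x, a x = ⊤) :
    dens (ofDens a hfin htop) = a :=
  dens_unique hfin (ofDens_apply a hfin htop)

omit [IsUltrametricDist X] in
theorem exists_agree (μ ν : MaxMin X) : ∃ r > 0, Agree r μ ν := by
  obtain ⟨C, hC⟩ := Metric.isBounded_iff.mp ((dens_finite μ).union (dens_finite ν)).isBounded
  obtain ⟨x, hx⟩ := dens_top μ
  obtain ⟨y, hy⟩ := dens_top ν
  have hx' : dens μ x ≠ ⊥ := by simp [hx]
  have hy' : dens ν y ≠ ⊥ := by simp [hy]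
  have hpos : 0 < max C 0 + 1 := by positivity
  refine ⟨max C 0 + 1, hpos, agree_of_near (fun z => ?_) (fun z => ?_)⟩
  · by_cases hz : dens μ z = ⊥
    · exact ⟨z, by simpa using hpos, by simp [hz]⟩
    · refine ⟨y, ?_, by simp [hy]⟩
      have := hC (Or.inr hy') (Or.inl hz)
      have := le_max_left C 0
      linarith
  · by_cases hz : dens ν z = ⊥
    · exact ⟨z, by simpa using hpos, by simp [hz]⟩
    · refine ⟨x, ?_, by simp [hx]⟩
      have := hC (Or.inl hx') (Or.inr hz)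
      have := le_max_left C 0
      linarith

omit [IsUltrametricDist X] in
theorem maxMinDist_nonneg (μ ν : MaxMin X) : 0 ≤ maxMinDist μ ν :=
  Real.sInf_nonneg fun _ hr => hr.1.le

omit [IsUltrametricDist X] in
theorem maxMinDist_le_of_agree {r : ℝ} (hr : 0 < r) {μ ν : MaxMin X} (h : Agree r μ ν) :
    maxMinDist μ ν ≤ r :=
  csInf_le ⟨0, fun _ hs => hs.1.le⟩ ⟨hr, h⟩

omit [IsUltrametricDist X] in
theorem agree_of_maxMinDist_lt {r : ℝ} {μ ν : MaxMin X} (h : maxMinDist μ ν < r) :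
    Agree r μ ν := by
  obtain ⟨s, hs, hsr⟩ := exists_lt_of_csInf_lt (by
    obtain ⟨r, hr, h⟩ := exists_agree μ ν
    exact ⟨r, hr, h⟩) h
  exact Agree.mono hs.2 hsr.le

omit [IsUltrametricDist X] in
theorem maxMinDist_le_of_forall {c : ℝ} (hc : 0 ≤ c) {μ ν : MaxMin X}
    (h : ∀ r, c < r → Agree r μ ν) : maxMinDist μ ν ≤ c :=
  le_of_forall_gt_imp_ge_of_dense fun r hr => maxMinDist_le_of_agree (hc.trans_lt hr) (h r hr)

omit [IsUltrametricDist X] in
theorem maxMinDist_self (μ : MaxMin X) : maxMinDist μ μ = 0 :=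
  le_antisymm (maxMinDist_le_of_forall le_rfl fun _ _ _ _ => rfl) (maxMinDist_nonneg μ μ)

omit [IsUltrametricDist X] in
theorem maxMinDist_comm (μ ν : MaxMin X) : maxMinDist μ ν = maxMinDist ν μ :=
  le_antisymm
    (maxMinDist_le_of_forall (maxMinDist_nonneg _ _) fun _ hr => (agree_of_maxMinDist_lt hr).symm)
    (maxMinDist_le_of_forall (maxMinDist_nonneg _ _) fun _ hr => (agree_of_maxMinDist_lt hr).symm)

omit [IsUltrametricDist X] in
theorem maxMinDist_triangle_max (μ ν ρ : MaxMin X) :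
    maxMinDist μ ρ ≤ max (maxMinDist μ ν) (maxMinDist ν ρ) :=
  maxMinDist_le_of_forall (le_max_of_le_left (maxMinDist_nonneg _ _)) fun _ hr =>
    (agree_of_maxMinDist_lt (lt_of_le_of_lt (le_max_left _ _) hr)).trans
      (agree_of_maxMinDist_lt (lt_of_le_of_lt (le_max_right _ _) hr))

omit [IsUltrametricDist X] in
theorem maxMinDist_triangle (μ ν ρ : MaxMin X) :
    maxMinDist μ ρ ≤ maxMinDist μ ν + maxMinDist ν ρ :=
  (maxMinDist_triangle_max μ ν ρ).trans
    (max_le (le_add_of_nonneg_right (maxMinDist_nonneg _ _))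
      (le_add_of_nonneg_left (maxMinDist_nonneg _ _)))

theorem eq_of_maxMinDist_eq_zero {μ ν : MaxMin X} (h : maxMinDist μ ν = 0) : μ = ν := by
  refine ext_dens fun x => le_antisymm ?_ ?_
  · exact le_of_forall_near (dens_finite ν)
      (fun r hr => near_of_agree hr (agree_of_maxMinDist_lt (by rwa [h]))) x
  · exact le_of_forall_near (dens_finite μ)
      (fun r hr => near_of_agree hr (agree_of_maxMinDist_lt (by rwa [h])).symm) x

theorem eval_close (μ : MaxMin X) (φ : C(X, ℝ)) {ε : ℝ} (hε : 0 < ε) :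
    ∃ r > 0, ∀ ν : MaxMin X, maxMinDist ν μ < r → |ν.1 φ - μ.1 φ| ≤ ε := by
  obtain ⟨r, hr, hcl⟩ : ∃ r > 0, ∀ x, dens μ x ≠ ⊥ → ∀ y, dist y x < r → |φ y - φ x| < ε := by
    have : ∀ᶠ r in nhdsWithin (0 : ℝ) (Set.Ioi 0),
        ∀ x ∈ {x | dens μ x ≠ ⊥}, ∀ y, dist y x < r → |φ y - φ x| < ε := by
      rw [Filter.eventually_all_finite (dens_finite μ)]
      intro x _
      obtain ⟨δ, hδ, h⟩ := Metric.continuous_iff.mp φ.continuous x ε hε
      filter_upwards [Ioo_mem_nhdsGT hδ] with r hr y hy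
      have := h y (hy.trans hr.2)
      rwa [Real.dist_eq] at this
    obtain ⟨r, h1, h2⟩ := (this.and self_mem_nhdsWithin).exists
    exact ⟨r, h2, h1⟩
  refine ⟨r, hr, fun ν hν => ?_⟩
  have hag := agree_of_maxMinDist_lt hν
  have h1 : ν.1 φ ≤ μ.1 φ + ε := by
    rw [apply_le_iff]
    intro y
    obtain ⟨x, hx, hle⟩ := near_of_agree hr hag y
    by_cases hb : dens μ x = ⊥
    · left
      rw [hb] at hle
      exact hle.trans bot_le
    rcases (apply_le_iff μ φ _).mp le_rfl x with h | h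
    · left
      refine hle.trans (h.trans ?_)
      exact_mod_cast le_add_of_nonneg_right hε.le
    · right
      have := hcl x hb y (by rwa [dist_comm])
      have := (abs_lt.mp this).2
      linarith
  have h2 : μ.1 φ ≤ ν.1 φ + ε := by
    rw [apply_le_iff]
    intro x
    by_cases hb : dens μ x = ⊥
    · left
      simp [hb]
    obtain ⟨y, hy, hle⟩ := near_of_agree hr hag.symm x
    rcases (apply_le_iff ν φ _).mp le_rfl y with h | h
    · left
      refine hle.trans (h.trans ?_)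
      exact_mod_cast le_add_of_nonneg_right hε.le
    · right
      have := hcl x hb y hy
      have := (abs_lt.mp this).1
      linarith
  rw [abs_le]
  constructor <;> linarith

end metric

section sym

variable {n : ℕ} {X : Type u} [MetricSpace X]

theorem tupleDist_le (x y : Fin n → X) (σ : Equiv.Perm (Fin n)) :
    tupleDist x y ≤ dist x (y ∘ σ) :=
  ciInf_le (Set.finite_range _).bddBelow σ

theorem exists_tupleDist_eq (x y : Fin n → X) :
    ∃ σ : Equiv.Perm (Fin n), tupleDist x y = dist x (y ∘ σ) := by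
  obtain ⟨σ, hσ⟩ := exists_eq_ciInf_of_finite
    (f := fun σ : Equiv.Perm (Fin n) => dist x (y ∘ σ))
  exact ⟨σ, hσ.symm⟩

theorem dist_comp_perm (x y : Fin n → X) (σ : Equiv.Perm (Fin n)) :
    dist (x ∘ σ) (y ∘ σ) = dist x y := by
  apply le_antisymm
  · exact (dist_pi_le_iff dist_nonneg).mpr fun i => dist_le_pi_dist x y (σ i)
  · refine (dist_pi_le_iff dist_nonneg).mpr fun i => ?_
    have := dist_le_pi_dist (x ∘ σ) (y ∘ σ) (σ.symm i)
    simpa using this

theorem tupleDist_congr_le {x y x' y' : Fin n → X} (hx : (permSetoid n X).r x x')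
    (hy : (permSetoid n X).r y y') : tupleDist x' y' ≤ tupleDist x y := by
  obtain ⟨σ, rfl⟩ := hx
  obtain ⟨τ, rfl⟩ := hy
  obtain ⟨ρ, hρ⟩ := exists_tupleDist_eq x y
  rw [hρ, ← dist_comp_perm x (y ∘ ρ) σ]
  refine (tupleDist_le _ _ (τ.symm * (ρ * σ))).trans (le_of_eq ?_)
  congr 1
  ext i
  simp

theorem tupleDist_congr (x y x' y' : Fin n → X) (hx : (permSetoid n X).r x x')
    (hy : (permSetoid n X).r y y') : tupleDist x y = tupleDist x' y' :=
  le_antisymm
    (tupleDist_congr_le ((permSetoid n X).iseqv.symm hx) ((permSetoid n X).iseqv.symm hy))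
    (tupleDist_congr_le hx hy)

theorem tupleDist_nonneg (x y : Fin n → X) : 0 ≤ tupleDist x y := by
  obtain ⟨σ, h⟩ := exists_tupleDist_eq x y
  rw [h]
  exact dist_nonneg

theorem tupleDist_self (x : Fin n → X) : tupleDist x x = 0 :=
  le_antisymm ((tupleDist_le x x 1).trans (by simp)) (tupleDist_nonneg x x)

theorem tupleDist_comm_le (x y : Fin n → X) : tupleDist x y ≤ tupleDist y x := by
  obtain ⟨σ, h⟩ := exists_tupleDist_eq y x
  rw [h, tupleDist_congr x y (x ∘ σ) y ⟨σ, rfl⟩ ⟨1, rfl⟩, dist_comm]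
  exact tupleDist_le _ _ 1

theorem tupleDist_comm (x y : Fin n → X) : tupleDist x y = tupleDist y x :=
  le_antisymm (tupleDist_comm_le x y) (tupleDist_comm_le y x)

theorem rel_of_tupleDist_eq_zero {x y : Fin n → X} (h : tupleDist x y = 0) :
    (permSetoid n X).r x y := by
  obtain ⟨σ, hσ⟩ := exists_tupleDist_eq x y
  rw [h] at hσ
  exact (permSetoid n X).iseqv.symm ⟨σ, eq_of_dist_eq_zero hσ.symm⟩

theorem tupleDist_triangle_max [IsUltrametricDist X] (x y z : Fin n → X) :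
    tupleDist x z ≤ max (tupleDist x y) (tupleDist y z) := by
  obtain ⟨σ, hσ⟩ := exists_tupleDist_eq x y
  obtain ⟨τ, hτ⟩ := exists_tupleDist_eq y z
  rw [hσ, hτ, ← dist_comp_perm y (z ∘ τ) σ]
  refine (tupleDist_le x z (τ * σ)).trans ?_
  refine (dist_pi_le_iff (le_max_of_le_left dist_nonneg)).mpr fun i => ?_
  refine (IsUltrametricDist.dist_triangle_max (x i) (y (σ i)) _).trans (max_le_max ?_ ?_)
  · exact dist_le_pi_dist x (y ∘ σ) i
  · exact dist_le_pi_dist (y ∘ σ) ((z ∘ τ) ∘ σ) i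

theorem tupleDist_triangle [IsUltrametricDist X] (x y z : Fin n → X) :
    tupleDist x z ≤ tupleDist x y + tupleDist y z :=
  (tupleDist_triangle_max x y z).trans
    (max_le (le_add_of_nonneg_right (tupleDist_nonneg _ _))
      (le_add_of_nonneg_left (tupleDist_nonneg _ _)))

theorem tupleDist_map_le {Y : Type u} [MetricSpace Y] {f : X → Y}
    (hf : ∀ x y, dist (f x) (f y) ≤ dist x y) (x y : Fin n → X) :
    tupleDist (f ∘ x) (f ∘ y) ≤ tupleDist x y := by
  obtain ⟨σ, hσ⟩ := exists_tupleDist_eq x y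
  rw [hσ]
  refine (tupleDist_le _ _ σ).trans ((dist_pi_le_iff dist_nonneg).mpr fun i => ?_)
  exact (hf _ _).trans (dist_le_pi_dist x (y ∘ σ) i)

end sym

end Pool.Agent.MP_6cdbe4_gt
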